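import Mathlib

/-!
# MP_df70bc_co: the iterated local permutation polynomial `f_10` over `F_7` drops degree

For `q = 7` and `n = 10` the coefficient of `∏ x_i ^ (q - 2)` in the reduced form of `f_n` is zero,
so the degree of `f_n` is smaller than `n (q - 2)`.
-/

set_option autoImplicit false

open MvPolynomial

namespace Pool.Agent.Results.MP_df70bc_co.DegreeDrop

/-- The exponent `e'` with `x ^ e' = x ^ e` on a field with `q` elements, `e' < q`. -/
def redExp (q e : ℕ) : ℕ := if e = 0 then 0 else (e - 1) % (q - 1) + 1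

/-- The reduced form of a polynomial over a finite field: every exponent `e` is replaced by
`redExp q e`. -/
noncomputable def reduce {F : Type} [Field F] [Fintype F] {n : ℕ}
    (P : MvPolynomial (Fin n) F) : MvPolynomial (Fin n) F :=
  ∑ m ∈ P.support,
    monomial (Finsupp.equivFunOnFinite.symm (fun i => redExp (Fintype.card F) (m i))) (P.coeff m)

/-- `t(y) = y + ∑_{k=0}^{q-2} y ^ k`, applied to a polynomial `y`. -/
noncomputable def t {F : Type} [Field F] [Fintype F] {n : ℕ}
    (y : MvPolynomial (Fin n) F) : MvPolynomial (Fin n) F :=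
  y + ∑ k ∈ Finset.range (Fintype.card F - 1), y ^ k

/-- The polynomial `f_n` in the `n` variables `X 0, …, X (n-1)`, in reduced form
(`f_0 = 0` is not used). -/
noncomputable def f (F : Type) [Field F] [Fintype F] : (n : ℕ) → MvPolynomial (Fin n) F
  | 0 => 0
  | 1 => X 0
  | (n + 2) => reduce (t ((rename Fin.castSucc (f F (n + 1))) ^ (Fintype.card F - 2)
      + (X (Fin.last (n + 1))) ^ (Fintype.card F - 2)))

/-! ### properties of the reduction -/

theorem pow_redExp {F : Type} [Field F] [Fintype F] (a : F) (e : ℕ) :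
    a ^ redExp (Fintype.card F) e = a ^ e := by
  unfold redExp
  split_ifs with h
  · rw [h]
  · obtain ⟨k, rfl⟩ := Nat.exists_eq_succ_of_ne_zero h
    simp only [Nat.succ_eq_add_one, Nat.add_sub_cancel]
    by_cases ha : a = 0
    · subst ha; simp
    · rw [pow_succ, pow_succ]
      congr 1
      conv_rhs => rw [← Nat.mod_add_div k (Fintype.card F - 1), pow_add, pow_mul,
        FiniteField.pow_card_sub_one_eq_one a ha, one_pow, mul_one]

theorem redExp_lt {q : ℕ} (hq : 1 < q) (e : ℕ) : redExp q e < q := by
  unfold redExp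
  split_ifs
  · omega
  · have := Nat.mod_lt (e - 1) (show 0 < q - 1 by omega)
    omega

theorem eval_reduce {F : Type} [Field F] [Fintype F] {n : ℕ} (P : MvPolynomial (Fin n) F)
    (x : Fin n → F) : eval x (reduce P) = eval x P := by
  unfold reduce
  rw [map_sum, eval_eq]
  apply Finset.sum_congr rfl
  intro m _
  rw [eval_monomial, Finsupp.prod_fintype _ _ (by simp)]
  congr 1
  rw [Finset.prod_subset (Finset.subset_univ m.support)]
  · apply Finset.prod_congr rfl
    intro i _
    simp [pow_redExp]
  · intro i _ hi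
    rw [Finsupp.notMem_support_iff] at hi
    simp [hi]

theorem reduce_lt {F : Type} [Field F] [Fintype F] {n : ℕ} (P : MvPolynomial (Fin n) F)
    (m : Fin n →₀ ℕ) (hm : m ∈ (reduce P).support) (i : Fin n) : m i < Fintype.card F := by
  unfold reduce at hm
  have h1 := MvPolynomial.support_sum hm
  rw [Finset.mem_biUnion] at h1
  obtain ⟨m', _, hm'⟩ := h1
  have h2 := MvPolynomial.support_monomial_subset hm'
  rw [Finset.mem_singleton] at h2
  subst h2
  simpa using redExp_lt Fintype.one_lt_card (m' i)

/-! ### the case `q = 7` -/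

abbrev K := ZMod 7

instance : Fact (Nat.Prime 7) := ⟨by norm_num⟩

/-- the transposition `(0 1)` -/
def tau (y : K) : K := y + (y ^ 0 + y ^ 1 + y ^ 2 + y ^ 3 + y ^ 4 + y ^ 5)

theorem tau_bij : Function.Bijective tau := by decide

theorem pow5_bij : Function.Bijective (fun y : K => y ^ 5) := by decide

theorem card_K : Fintype.card K = 7 := ZMod.card 7

theorem eval_f_succ (n : ℕ) (x : Fin (n + 2) → K) :
    eval x (f K (n + 2)) =
      tau (eval (fun i => x i.castSucc) (f K (n + 1)) ^ 5 + x (Fin.last (n + 1)) ^ 5) := by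
  rw [f, eval_reduce, t, card_K]
  simp only [Nat.reduceSub, map_add, map_sum, map_pow, eval_X, eval_rename]
  rw [tau]
  simp only [Finset.sum_range_succ, Finset.sum_range_zero, zero_add]
  rfl

theorem eval_f_one (x : Fin 1 → K) : eval x (f K 1) = x 0 := by
  rw [f]; simp

theorem f_lt (n : ℕ) (m : Fin n →₀ ℕ) (hm : m ∈ (f K n).support) (i : Fin n) : m i < 7 := by
  match n, m, hm, i with
  | 0, _, _, i => exact i.elim0
  | 1, m, hm, i =>
    rw [f] at hm
    have h2 := MvPolynomial.support_monomial_subset hm
    rw [Finset.mem_singleton] at h2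
    subst h2
    have : i = 0 := Subsingleton.elim _ _
    subst this
    simp
  | (n + 2), m, hm, i =>
    rw [f] at hm
    have := reduce_lt _ m hm i
    rwa [card_K] at this

/-- `f_n` is a local permutation polynomial -/
theorem lpp (n : ℕ) : ∀ (x : Fin (n + 1) → K) (i : Fin (n + 1)),
    Function.Bijective (fun a => eval (Function.update x i a) (f K (n + 1))) := by
  induction n with
  | zero =>
    intro x i
    have : i = (0 : Fin 1) := Subsingleton.elim (α := Fin 1) _ _
    subst this
    have h1 : ∀ a : K, eval (Function.update x 0 a) (f K (0 + 1)) = a := by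
      intro a
      exact (eval_f_one _).trans (by simp)
    simp only [h1]
    exact Function.bijective_id
  | succ n ih =>
    intro x i
    simp only [eval_f_succ]
    refine Fin.lastCases ?_ (fun j => ?_) i
    · have h1 : ∀ a : K, (fun i : Fin (n + 1) => Function.update x (Fin.last (n + 1)) a i.castSucc) =
          fun i => x i.castSucc := by
        intro a
        ext k
        rw [Function.update_of_ne (Fin.castSucc_lt_last k).ne]
      simp only [h1, Function.update_self]
      set c := eval (fun i : Fin (n + 1) => x i.castSucc) (f K (n + 1)) ^ 5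
      exact tau_bij.comp ((Equiv.addLeft c).bijective.comp pow5_bij)
    · have h1 : ∀ a : K, (fun i : Fin (n + 1) => Function.update x j.castSucc a i.castSucc) =
          Function.update (fun i : Fin (n + 1) => x i.castSucc) j a := by
        intro a
        ext k
        by_cases hk : k = j
        · subst hk; simp
        · rw [Function.update_of_ne hk, Function.update_of_ne]
          intro h
          exact hk (Fin.castSucc_injective _ h)
      have h2 : ∀ a : K, Function.update x j.castSucc a (Fin.last (n + 1)) = x (Fin.last (n + 1)) := by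
        intro a
        rw [Function.update_of_ne (Fin.castSucc_lt_last j).ne']
      simp only [h1, h2]
      set c := x (Fin.last (n + 1)) ^ 5
      exact tau_bij.comp ((Equiv.addRight c).bijective.comp (pow5_bij.comp (ih _ j)))

/-- the weight extracting the coefficient of `x ^ k` -/
def chi (k : ℕ) (a : K) : K := if k = 0 then 1 - a ^ 6 else - a ^ (6 - k)

theorem chi_sum : ∀ k e : Fin 7, ∑ a : K, chi k a * a ^ (e : ℕ) = if e = k then 1 else 0 := by
  decide

theorem coeff_eq {n : ℕ} (P : MvPolynomial (Fin n) K) (hP : ∀ m ∈ P.support, ∀ i, m i < 7)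
    (m : Fin n →₀ ℕ) (hm : ∀ i, m i < 7) :
    P.coeff m = ∑ x : Fin n → K, (∏ i, chi (m i) (x i)) * eval x P := by
  have h1 : ∀ x : Fin n → K, (∏ i, chi (m i) (x i)) * eval x P =
      ∑ m' ∈ P.support, P.coeff m' * ∏ i, (chi (m i) (x i) * x i ^ (m' i)) := by
    intro x
    rw [eval_eq, Finset.mul_sum]
    apply Finset.sum_congr rfl
    intro m' _
    rw [Finset.prod_subset (Finset.subset_univ m'.support), Finset.prod_mul_distrib]
    · ring
    · intro i _ hi
      rw [Finsupp.notMem_support_iff] at hi
      simp [hi]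
  simp only [h1]
  rw [Finset.sum_comm]
  simp only [← Finset.mul_sum]
  have h2 : ∀ m' ∈ P.support, ∑ x : Fin n → K, ∏ i, (chi (m i) (x i) * x i ^ (m' i)) =
      if m' = m then 1 else 0 := by
    intro m' hm'
    have h3 := Finset.prod_univ_sum (fun _ : Fin n => (Finset.univ : Finset K))
      (fun i a => chi (m i) a * a ^ (m' i))
    rw [Fintype.piFinset_univ] at h3
    rw [← h3]
    have h4 : ∀ i, ∑ a : K, chi (m i) a * a ^ (m' i) = if m' i = m i then 1 else 0 := by
      intro i
      have := chi_sum ⟨m i, hm i⟩ ⟨m' i, hP m' hm' i⟩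
      simpa [Fin.ext_iff] using this
    simp only [h4]
    split_ifs with h
    · subst h; simp
    · obtain ⟨i, hi⟩ : ∃ i, m' i ≠ m i := by
        by_contra hc
        push Not at hc
        exact h (Finsupp.ext hc)
      exact Finset.prod_eq_zero (Finset.mem_univ i) (by simp [hi])
  rw [Finset.sum_congr rfl (fun m' hm' => by rw [h2 m' hm'])]
  by_cases hms : m ∈ P.support
  · simp [hms]
  · rw [MvPolynomial.notMem_support_iff] at hms
    simp [hms]

theorem coeff_six (n : ℕ) (m : Fin (n + 1) →₀ ℕ) (hm : ∀ i, m i < 7) (i : Fin (n + 1))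
    (hi : m i = 6) : (f K (n + 1)).coeff m = 0 := by
  rw [coeff_eq _ (f_lt _) m hm]
  rw [← (Equiv.piSplitAt i (fun _ => K)).symm.sum_comp, Fintype.sum_prod_type_right]
  apply Finset.sum_eq_zero
  intro y _
  set x0 : Fin (n + 1) → K := (Equiv.piSplitAt i (fun _ => K)).symm (0, y) with hx0
  have h1 : ∀ a, (Equiv.piSplitAt i (fun _ => K)).symm (a, y) = Function.update x0 i a := by
    intro a
    ext j
    by_cases hj : j = i
    · subst hj; simp [Equiv.piSplitAt]
    · rw [Function.update_of_ne hj, hx0]
      simp [Equiv.piSplitAt, hj]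
  simp only [h1]
  have h2 : ∀ a : K, ∏ j, chi (m j) (Function.update x0 i a j) =
      - ∏ j ∈ Finset.univ.erase i, chi (m j) (x0 j) := by
    intro a
    rw [← Finset.mul_prod_erase _ _ (Finset.mem_univ i)]
    have h3 : chi (m i) (Function.update x0 i a i) = -1 := by
      rw [hi]; simp [chi]
    rw [h3, neg_one_mul]
    congr 1
    apply Finset.prod_congr rfl
    intro j hj
    rw [Function.update_of_ne (Finset.ne_of_mem_erase hj)]
  simp only [h2]
  rw [← Finset.mul_sum]
  have h4 : ∑ a, eval (Function.update x0 i a) (f K (n + 1)) = ∑ b : K, b :=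
    (Equiv.ofBijective _ (lpp n x0 i)).sum_comp (fun b => b)
  rw [h4]
  have h5 : ∑ b : K, b = 0 := by decide
  rw [h5, mul_zero]

/-- one transfer step -/
def T (h : K → K) (z : K) : K := ∑ a : K, h (tau (z ^ 5 + a ^ 5)) * a

theorem transfer (n : ℕ) (h : K → K) :
    ∑ x : Fin (n + 2) → K, h (eval x (f K (n + 2))) * ∏ i, x i =
      ∑ x : Fin (n + 1) → K, T h (eval x (f K (n + 1))) * ∏ i, x i := by
  rw [← (Fin.snocEquiv (fun _ => K)).sum_comp, Fintype.sum_prod_type_right]
  apply Finset.sum_congr rfl
  intro x _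
  rw [T, Finset.sum_mul]
  apply Finset.sum_congr rfl
  intro a _
  rw [eval_f_succ, Fin.prod_univ_castSucc]
  simp only [Fin.snocEquiv_apply, Fin.snoc_castSucc, Fin.snoc_last]
  ring

/-- a function given by its list of values -/
def vec (l : List K) (z : K) : K := l.getD z.val 0

theorem T1 : T id = vec [5, 5, 2, 5, 3, 5, 3] := by
  funext z; revert z; decide
theorem T2 : T (vec [5, 5, 2, 5, 3, 5, 3]) = vec [0, 2, 4, 1, 2, 5, 0] := by
  funext z; revert z; decide
theorem T3 : T (vec [0, 2, 4, 1, 2, 5, 0]) = vec [5, 5, 5, 3, 5, 1, 4] := by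
  funext z; revert z; decide
theorem T4 : T (vec [5, 5, 5, 3, 5, 1, 4]) = vec [0, 2, 1, 0, 4, 0, 0] := by
  funext z; revert z; decide
theorem T5 : T (vec [0, 2, 1, 0, 4, 0, 0]) = vec [5, 5, 6, 6, 1, 0, 5] := by
  funext z; revert z; decide
theorem T6 : T (vec [5, 5, 6, 6, 1, 0, 5]) = vec [0, 3, 4, 2, 2, 3, 0] := by
  funext z; revert z; decide
theorem T7 : T (vec [0, 3, 4, 2, 2, 3, 0]) = vec [4, 4, 0, 3, 6, 2, 2] := by
  funext z; revert z; decide
theorem T8 : T (vec [4, 4, 0, 3, 6, 2, 2]) = vec [0, 6, 0, 6, 0, 2, 0] := by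
  funext z; revert z; decide
theorem T9 : T (vec [0, 6, 0, 6, 0, 2, 0]) = vec [1, 1, 5, 0, 6, 6, 2] := by
  funext z; revert z; decide

theorem top_sum : ∑ x : Fin 10 → K, eval x (f K 10) * ∏ i, x i = 0 := by
  have h := transfer 8 id
  simp only [id] at h
  rw [h, T1, transfer 7, T2, transfer 6, T3, transfer 5, T4,
    transfer 4, T5, transfer 3, T6, transfer 2, T7, transfer 1, T8, transfer 0, T9]
  simp only [Nat.reduceAdd, eval_f_one]
  rw [← (Equiv.funUnique (Fin 1) K).symm.sum_comp]
  decide

/-- Over `F_7` the polynomial `f_10` has degree less than `10 * (7 - 2)`; so it is false that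
`deg f_n = n (q - 2)` for all odd `q > 3` and all `n ≥ 2`. -/
theorem result : (f (ZMod 7) 10).totalDegree < 10 * (7 - 2) ∧
    ¬ ∀ (p r : ℕ) (_ : Fact p.Prime) (F : Type) (_ : Field F) (_ : Fintype F) (n : ℕ),
      Odd p → Fintype.card F = p ^ r → 3 < p ^ r → 2 ≤ n →
      (f F n).totalDegree = n * (p ^ r - 2) := by
  have main : (f (ZMod 7) 10).totalDegree < 10 * (7 - 2) := by
    rw [totalDegree, Finset.sup_lt_iff (by norm_num)]
    intro m hm
    have h7 : ∀ i, m i < 7 := f_lt 10 m hm
    have h6 : ∀ i, m i ≤ 5 := by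
      intro i
      have h1 := h7 i
      by_contra hc
      have h2 : m i = 6 := by omega
      rw [MvPolynomial.mem_support_iff] at hm
      exact hm (coeff_six 9 m h7 i h2)
    have hsum : (m.sum fun _ e => e) = ∑ i, m i := Finsupp.sum_fintype _ _ (by simp)
    rw [hsum]
    by_contra hc
    push Not at hc
    have h5 : ∀ i, m i = 5 := by
      intro i
      have h1 : ∑ i, m i = m i + ∑ j ∈ Finset.univ.erase i, m j :=
        (Finset.add_sum_erase _ _ (Finset.mem_univ i)).symm
      have h2 : ∑ j ∈ Finset.univ.erase i, m j ≤ ∑ j ∈ Finset.univ.erase i, 5 :=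
        Finset.sum_le_sum (fun j _ => h6 j)
      rw [Finset.sum_const, Finset.card_erase_of_mem (Finset.mem_univ i), Finset.card_univ,
        Fintype.card_fin, smul_eq_mul] at h2
      have h3 := h6 i
      omega
    rw [MvPolynomial.mem_support_iff] at hm
    apply hm
    rw [coeff_eq _ (f_lt _) m h7]
    have h1 : ∀ x : Fin 10 → K, (∏ i, chi (m i) (x i)) * eval x (f K 10) =
        eval x (f K 10) * ∏ i, x i := by
      intro x
      rw [mul_comm]
      congr 1
      have h2 : ∀ i, chi (m i) (x i) = - x i := by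
        intro i
        rw [h5 i]
        simp [chi]
      simp only [h2]
      rw [Finset.prod_neg]
      simp only [Finset.card_univ, Fintype.card_fin]
      rw [show ((-1 : K)) ^ 10 = 1 by decide, one_mul]
    rw [Finset.sum_congr rfl (fun x _ => h1 x), top_sum]
  refine ⟨main, ?_⟩
  intro h
  have h1 := h 7 1 inferInstance (ZMod 7) inferInstance inferInstance 10 (by decide)
    (by simp [ZMod.card]) (by norm_num) (by norm_num)
  have h2 : (f (ZMod 7) 10).totalDegree = 10 * (7 - 2) := by
    simpa using h1
  omega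

end Pool.Agent.Results.MP_df70bc_co.DegreeDrop
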